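import Pool.Agent.helper48.TH.Spec

/-! MP_f42afa_pr, project TH, row SPA (after helper24/TWO/SPR). -/

set_option autoImplicit false

namespace TP.TW

open DP MeasureTheory Finset

private theorem SPA_nr (S : Finset V) (x : V) (a b d e : ℤ) (t : ℕ) (h1 : x.1 - 3 * t ≤ a)
    (h2 : b ≤ x.1 + 3 * t) (h3 : x.2 - 3 * t ≤ d) (h4 : e ≤ x.2 + 3 * t) :
    nr S a b d e t ⊆ S.filter fun v => sd x v ≤ 4 * t := by
  intro v hv
  unfold nr at hv
  rw [mem_filter] at hv ⊢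
  refine ⟨hv.1, ?_⟩
  obtain ⟨_, h5, h6, h7, h8⟩ := hv
  unfold sd
  omega

private theorem SPA_wgt (A A' Ω Ω' : Finset V) (B : (V → Bool) → Finset V) (t : ℕ) (hA : A ⊆ A')
    (hΩ : Ω ⊆ Ω') : wgt A Ω B t ≤ wgt A' Ω' B t := by
  unfold wgt
  have h1 : (0 : ℝ) ≤ Real.log ((t : ℝ) + 2) := by
    apply Real.log_nonneg
    have : (0 : ℝ) ≤ t := Nat.cast_nonneg t
    linarith
  have h2 : (#A : ℝ) ≤ #A' := by exact_mod_cast card_le_card hA
  refine add_le_add (mul_le_mul_of_nonneg_right h2 h1) ?_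
  refine sum_le_sum_of_subset_of_nonneg hΩ (fun v _ _ => ?_)
  exact measureReal_nonneg

theorem SPA (anr : ANR_stmt) (vsa : VSA_stmt) : SPA_stmt := by
  obtain ⟨C, hC, h⟩ := vsa
  refine ⟨4 * C, by positivity, fun k A Ω B x t ht hT => ?_⟩
  have hP : IsProbabilityMeasure P1 := by unfold P1; infer_instance
  have hU : ∀ A B : Set (V → Bool), Pr (A ∪ B) ≤ Pr A + Pr B := fun A B => measureReal_union_le A B
  have hM : ∀ A B : Set (V → Bool), A ⊆ B → Pr A ≤ Pr B := fun A B hAB => measureReal_mono hAB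
  have ht2 : (0 : ℝ) ≤ (t : ℝ) ^ 2 := by positivity
  set W := wgt (A.filter fun v => sd x v ≤ 4 * t) (Ω.filter fun v => sd x v ≤ 4 * t) B t with hW
  have hw : ∀ a b d e : ℤ, x.1 - 3 * t ≤ a → b ≤ x.1 + 3 * t → x.2 - 3 * t ≤ d →
      e ≤ x.2 + 3 * t → C * wgt (nr A a b d e t) (nr Ω a b d e t) B t / (t : ℝ) ^ 2 ≤
        C * W / (t : ℝ) ^ 2 := by
    intro a b d e h1 h2 h3 h4
    refine div_le_div_of_nonneg_right (mul_le_mul_of_nonneg_left ?_ hC.le) ht2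
    exact SPA_wgt _ _ _ _ B t (SPA_nr A x a b d e t h1 h2 h3 h4) (SPA_nr Ω x a b d e t h1 h2 h3 h4)
  have e1 := (h k A Ω B t (x.1 - 3 * t) (x.2 + t) ht hT).1.trans
    (hw _ _ _ _ (by omega) (by omega) (by omega) (by omega))
  have e2 := (h k A Ω B t (x.1 - 3 * t) (x.2 - 3 * t) ht hT).1.trans
    (hw _ _ _ _ (by omega) (by omega) (by omega) (by omega))
  have e3 := (h k A Ω B t (x.1 + t) (x.2 - 3 * t) ht hT).2.trans
    (hw _ _ _ _ (by omega) (by omega) (by omega) (by omega))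
  have e4 := (h k A Ω B t (x.1 - 3 * t) (x.2 - 3 * t) ht hT).2.trans
    (hw _ _ _ _ (by omega) (by omega) (by omega) (by omega))
  have hsub : {β | SR (col β) k (A ∪ B β) x t} ⊆
      ({β | crs true (col β) k (til (A ∪ B β)) (x.1 - 3 * t) (x.1 - 3 * t + 6 * t) (x.2 + t) (x.2 + t + 2 * t)} ∪
      {β | crs true (col β) k (til (A ∪ B β)) (x.1 - 3 * t) (x.1 - 3 * t + 6 * t) (x.2 - 3 * t) (x.2 - 3 * t + 2 * t)}) ∪
      ({β | crs false (col β) k (til (A ∪ B β)) (x.1 + t) (x.1 + t + 2 * t) (x.2 - 3 * t) (x.2 - 3 * t + 6 * t)} ∪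
      {β | crs false (col β) k (til (A ∪ B β)) (x.1 - 3 * t) (x.1 - 3 * t + 2 * t) (x.2 - 3 * t) (x.2 - 3 * t + 6 * t)}) := by
    intro β hβ
    have hβ' : SR (col β) k (A ∪ B β) x t := hβ
    rcases anr (col β) k (A ∪ B β) x t ht hβ' with hc | hc | hc | hc
    · refine Or.inl (Or.inl ?_)
      have q1 : x.1 - 3 * (t : ℤ) + 6 * t = x.1 + 3 * t := by ring
      have q2 : x.2 + (t : ℤ) + 2 * t = x.2 + 3 * t := by ring
      show crs true (col β) k (til (A ∪ B β)) _ _ _ _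
      rw [q1, q2]
      exact hc
    · refine Or.inl (Or.inr ?_)
      have q1 : x.1 - 3 * (t : ℤ) + 6 * t = x.1 + 3 * t := by ring
      have q2 : x.2 - 3 * (t : ℤ) + 2 * t = x.2 - t := by ring
      show crs true (col β) k (til (A ∪ B β)) _ _ _ _
      rw [q1, q2]
      exact hc
    · refine Or.inr (Or.inl ?_)
      have q1 : x.2 - 3 * (t : ℤ) + 6 * t = x.2 + 3 * t := by ring
      have q2 : x.1 + (t : ℤ) + 2 * t = x.1 + 3 * t := by ring
      show crs false (col β) k (til (A ∪ B β)) _ _ _ _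
      rw [q1, q2]
      exact hc
    · refine Or.inr (Or.inr ?_)
      have q1 : x.2 - 3 * (t : ℤ) + 6 * t = x.2 + 3 * t := by ring
      have q2 : x.1 - 3 * (t : ℤ) + 2 * t = x.1 - t := by ring
      show crs false (col β) k (til (A ∪ B β)) _ _ _ _
      rw [q1, q2]
      exact hc
  refine (hM _ _ hsub).trans ?_
  refine (hU _ _).trans ?_
  have u1 := hU {β | crs true (col β) k (til (A ∪ B β)) (x.1 - 3 * t) (x.1 - 3 * t + 6 * t) (x.2 + t) (x.2 + t + 2 * t)}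
      {β | crs true (col β) k (til (A ∪ B β)) (x.1 - 3 * t) (x.1 - 3 * t + 6 * t) (x.2 - 3 * t) (x.2 - 3 * t + 2 * t)}
  have u2 := hU {β | crs false (col β) k (til (A ∪ B β)) (x.1 + t) (x.1 + t + 2 * t) (x.2 - 3 * t) (x.2 - 3 * t + 6 * t)}
      {β | crs false (col β) k (til (A ∪ B β)) (x.1 - 3 * t) (x.1 - 3 * t + 2 * t) (x.2 - 3 * t) (x.2 - 3 * t + 6 * t)}
  have e5 : 4 * C * W / (t : ℝ) ^ 2 = C * W / (t : ℝ) ^ 2 + C * W / (t : ℝ) ^ 2 +
      (C * W / (t : ℝ) ^ 2 + C * W / (t : ℝ) ^ 2) := by ring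
  rw [e5]
  exact add_le_add (u1.trans (add_le_add e1 e2)) (u2.trans (add_le_add e3 e4))

end TP.TW
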